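import Pool.Agent.Zk27.MB2.Cont

/-! Second version: the maximal solution and its blow-up -/

open MeasureTheory Set
open scoped ContDiff Topology

namespace Pool.Agent.Zk27.MB

open Pool.Agent.H708R2.EulerSign

variable {D n₀ : ℕ} {w₀ : ℝ × ℝ → ℝ} {r₀ α q : ℝ}

lemma trivSol2 (T : (V → V) → V → V) (u : ℝ → V → V) (p : ℝ → V → ℝ) : IsModSol T (Ico 0 0) u p := by
  have h : Ico (0:ℝ) 0 = ∅ := Ico_self 0
  rw [h]
  refine ⟨?_, ?_, ?_, ?_, ?_, ?_⟩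
  · rw [empty_prod]; exact contDiffOn_empty
  · rw [empty_prod]; exact contDiffOn_empty
  · intro t ht; exact absurd ht (notMem_empty t)
  · intro t ht; exact absurd ht (notMem_empty t)
  · intro t ht; exact absurd ht (notMem_empty t)
  · intro t ht; exact absurd ht (notMem_empty t)

lemma sol_zero2 {N : ℕ} {Z Y : ℝ → ℝ × ℝ → ℝ × ℝ} (hF : Fl2 D n₀ α q w₀ N Z Y) :
    sol w₀ Y 0 = par w₀ := by
  have e : wt w₀ Y 0 = w₀ := by
    funext y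
    unfold wt
    rw [hF.zero']
  unfold sol
  rw [e]

lemma sol_norm2 (hD : Dat2 n₀ w₀ r₀) (Y : ℝ → ℝ × ℝ → ℝ × ℝ) (t : ℝ) (x : V) :
    ‖sol w₀ Y t x‖ ≤ 1 := by
  rw [pi_norm_le_iff_of_nonneg zero_le_one]
  intro i
  fin_cases i
  · simp [sol, par]
  · simp [sol, par]
  · exact hD.le_one _

/-- the gradient blows up in finite time, as in the criterion of Beale, Kato and Majda -/
theorem blowup2 (hD : Dat2 n₀ w₀ r₀) {C : ℝ} (hT : IsOp (TG D n₀ α q) C) {CX : ℝ} (hCX : 0 < CX)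
    (hX : ∀ (w₀ : ℝ × ℝ → ℝ), (∀ z, |w₀ z| ≤ 1) → ∀ (s : Finset ℕ) Y t z,
      ‖vel s (Xg D α q) (pg D) w₀ Y t z‖ ≤ CX) {T₁ : ℝ} (hT₁ : 0 < T₁)
    (hfront : ∃ N₁ : ℕ, ∀ N ≥ N₁, ∀ Z Y, Fl2 D n₀ α q w₀ N Z Y →
      1 / 2 ≤ w₀ (Y T₁ ((1 / 2) ^ N, 0))) :
    (Life D n₀ α q w₀).Nonempty ∧ BddAbove (Life D n₀ α q w₀) ∧ 0 < sSup (Life D n₀ α q w₀) ∧
      sSup (Life D n₀ α q w₀) ≤ T₁ ∧
      ∃ (u : ℝ → V → V) (p : ℝ → V → ℝ), u 0 = par w₀ ∧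
      IsModSol (TG D n₀ α q) (Ico 0 (sSup (Life D n₀ α q w₀))) u p ∧
      ContDiffOn ℝ ∞ (fun z : ℝ × V => u z.1 z.2) (Ico 0 (sSup (Life D n₀ α q w₀)) ×ˢ univ) ∧
      ContDiffOn ℝ ∞ (fun z : ℝ × V => p z.1 z.2) (Ico 0 (sSup (Life D n₀ α q w₀)) ×ˢ univ) ∧
      (∀ t x, ‖u t x‖ ≤ 1) ∧
      (∀ (a : ℝ) (v : ℝ → V → V) (r : ℝ → V → ℝ), IsModSol (TG D n₀ α q) (Ico 0 a) v r →
        v 0 = u 0 → a ≤ sSup (Life D n₀ α q w₀) ∧ ∀ t ∈ Ico 0 a, v t = u t) ∧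
      ∀ g : ℝ → ℝ, IntegrableOn g (Ico 0 (sSup (Life D n₀ α q w₀))) →
        ∃ t ∈ Ico 0 (sSup (Life D n₀ α q w₀)), ∃ x, g t < ‖fderiv ℝ (u t) x‖ := by
  classical
  have hFex : ∀ N, ∃ Z Y, Fl2 D n₀ α q w₀ N Z Y := fun N => exists_Fl2 hD D α q N flow_ex
  choose Zn Yn hFn using hFex
  set S : Set ℝ := Life D n₀ α q w₀ with hS
  -- membership from continuation
  have hmem : ∀ {a : ℝ}, 0 ≤ a → ∀ {v : ℝ → V → V} {p : ℝ → V → ℝ},
      IsModSol (TG D n₀ α q) (Ico 0 a) v p → v 0 = par w₀ → ∀ {g : ℝ → ℝ},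
      IntegrableOn g (Ico 0 a) →
      (∀ t ∈ Ico 0 a, ∀ x, ‖v t x‖ ≤ g t ∧ ‖fderiv ℝ (v t) x‖ ≤ g t) → ∃ τ > 0, a + τ ∈ S := by
    intro a ha v p hv hv0 g hg hB
    obtain ⟨N₂, hN₂⟩ := cont_step2 hD hT hCX hX ha hv hv0 hg hB
    obtain ⟨τ, hτ, h⟩ := hN₂ N₂ le_rfl
    exact ⟨τ, hτ, by linarith, N₂, _, _, hFn N₂, h _ _ (hFn N₂)⟩
  -- bounds for the truncated flows
  have hbd : ∀ {N Z Y}, Fl2 D n₀ α q w₀ N Z Y → ∀ (b : ℝ), 0 ≤ b →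
      ∃ B, ∀ t ∈ Icc 0 b, ∀ x, ‖sol w₀ Y t x‖ ≤ B ∧ ‖fderiv ℝ (sol w₀ Y t) x‖ ≤ B := by
    intro N Z Y hF b hb
    obtain ⟨K, -, hK⟩ := Pool.Agent.Zk71.MB.unif_bound (a := b + 1) (z := sol w₀ Y)
      (((sol_smooth2 hD hF).of_le (by simp)).contDiffOn) (fun t _ => par_periodic _) hb
      (by linarith)
    exact ⟨K, hK⟩
  have hconst : ∀ (a B : ℝ), IntegrableOn (fun _ : ℝ => B) (Ico 0 a) := fun a B =>
    integrableOn_const measure_Ico_lt_top.ne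
  have hlt : ∀ t ∈ S, t < T₁ := by
    rintro t ⟨ht0, N, Z, Y, hF, hG⟩
    by_contra hcon
    push Not at hcon
    have hG1 := hG.mono hcon
    obtain ⟨B, hB⟩ := hbd hF T₁ hT₁.le
    obtain ⟨N₂, hN₂⟩ := cont_step2 hD hT hCX hX hT₁.le (isModSol2 hD hF hG1)
      (sol_zero2 hF) (hconst T₁ B) (fun t ht => hB t (Ico_subset_Icc_self ht))
    obtain ⟨N₁, hN₁⟩ := hfront
    obtain ⟨τ, hτ, h⟩ := hN₂ (max N₁ N₂) (le_max_right _ _)
    have h1 := h _ _ (hFn (max N₁ N₂)) T₁ ⟨hT₁.le, by linarith⟩ ((1 / 2) ^ (max N₁ N₂), 0) (by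
      rw [Prod.norm_def]
      simp only [norm_zero]
      rw [Real.norm_of_nonneg (by positivity), max_eq_left (by positivity)]
      exact half_le_Rad _)
    have h2 := hN₁ (max N₁ N₂) (le_max_left _ _) (Zn (max N₁ N₂)) (Yn (max N₁ N₂))
      (hFn (max N₁ N₂))
    rw [h1] at h2
    linarith
  have hbdd : BddAbove S := ⟨T₁, fun t ht => (hlt t ht).le⟩
  have hpos : ∃ τ > 0, τ ∈ S := by
    obtain ⟨τ, hτ, h⟩ := hmem le_rfl (trivSol2 (TG D n₀ α q) (fun _ => par w₀) 0) rfl (g := 0)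
      (hconst 0 0) (fun t ht => by rw [Ico_self] at ht; exact absurd ht (notMem_empty t))
    rw [zero_add] at h
    exact ⟨τ, hτ, h⟩
  obtain ⟨τ₀, hτ₀, hτ₀S⟩ := hpos
  set Ts := sSup S with hTs
  have hTs0 : 0 < Ts := hτ₀.trans_le (le_csSup hbdd hτ₀S)
  have hTsT₁ : Ts ≤ T₁ := csSup_le ⟨τ₀, hτ₀S⟩ fun t ht => (hlt t ht).le
  -- the solution
  set idx : ℝ → (ℝ → ℝ × ℝ → ℝ × ℝ) := fun t =>
    if h : ∃ Y, ∃ N Z, Fl2 D n₀ α q w₀ N Z Y ∧ ∃ t' > t, Good2 w₀ N Y t' then h.choose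
    else fun _ z => z with hidx
  have hidx' : ∀ t, (∃ Y, ∃ N Z, Fl2 D n₀ α q w₀ N Z Y ∧ ∃ t' > t, Good2 w₀ N Y t') →
      ∃ N Z, Fl2 D n₀ α q w₀ N Z (idx t) ∧ ∃ t' > t, Good2 w₀ N (idx t) t' := by
    intro t h
    have : idx t = h.choose := by rw [hidx]; simp only [dif_pos h]
    rw [this]
    exact h.choose_spec
  set u : ℝ → V → V := fun t => sol w₀ (idx t) t with hu
  set p : ℝ → V → ℝ := fun t => prs w₀ (idx t) t with hp
  have hprs : ∀ Y t x, prs w₀ Y t x = (sol w₀ Y t x 2) ^ 2 / 2 := fun Y t x => rfl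
  have hagree : ∀ {N Z Y}, Fl2 D n₀ α q w₀ N Z Y → ∀ t', Good2 w₀ N Y t' → ∀ t, 0 ≤ t → t < t' →
      u t = sol w₀ Y t ∧ p t = prs w₀ Y t := by
    intro N Z Y hF t' hG t ht0 ht
    obtain ⟨N₂, Z₂, hF₂, t₂, ht₂, hG₂⟩ := hidx' t ⟨Y, N, Z, hF, t', ht, hG⟩
    have h1 : u t = sol w₀ Y t := by
      have h2 := isModSol2 (α := α) (q := q) hD hF₂ (hG₂.mono (min_le_left t₂ t'))
      have h3 := isModSol2 (α := α) (q := q) hD hF (hG.mono (min_le_right t₂ t'))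
      exact Pool.Agent.Zk71.MB.unique hT h2 h3 (by rw [sol_zero2 hF₂, sol_zero2 hF]) t
        ⟨ht0, lt_min ht₂ ht⟩
    refine ⟨h1, ?_⟩
    funext x
    have h4 : p t x = (u t x 2) ^ 2 / 2 := rfl
    rw [h4, h1, hprs]
  have hloc : ∀ t ∈ Ico 0 Ts, ∃ N Z Y, Fl2 D n₀ α q w₀ N Z Y ∧ ∃ t', t < t' ∧ t' ≤ Ts ∧
      Good2 w₀ N Y t' ∧ ∀ s, 0 ≤ s → s < t' → u s = sol w₀ Y s ∧ p s = prs w₀ Y s := by
    intro t ht
    obtain ⟨t', ht', h⟩ := exists_lt_of_lt_csSup ⟨τ₀, hτ₀S⟩ ht.2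
    obtain ⟨h0, N, Z, Y, hF, hG⟩ := ht'
    exact ⟨N, Z, Y, hF, t', h, le_csSup hbdd ⟨h0, N, Z, Y, hF, hG⟩, hG, hagree hF t' hG⟩
  have hsm : ContDiffOn ℝ ∞ (fun z : ℝ × V => u z.1 z.2) (Ico 0 Ts ×ˢ univ) := by
    rintro ⟨t, x⟩ ⟨ht, -⟩
    obtain ⟨N, Z, Y, hF, t', htt', -, hG, hN⟩ := hloc t ht
    have h1 : ContDiffWithinAt ℝ ∞ (fun z : ℝ × V => sol w₀ Y z.1 z.2) (Ico 0 Ts ×ˢ univ) (t, x) :=
      (sol_smooth2 hD hF).contDiffAt.contDiffWithinAt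
    refine h1.congr_of_eventuallyEq ?_ (by simp only; rw [(hN t ht.1 htt').1])
    have h2 : ∀ᶠ z : ℝ × V in 𝓝 (t, x), z.1 < t' :=
      (continuous_fst.tendsto (t, x)).eventually (eventually_lt_nhds htt')
    filter_upwards [nhdsWithin_le_nhds h2, self_mem_nhdsWithin] with z hz hz'
    rw [(hN z.1 hz'.1.1 hz).1]
  have hsmp : ContDiffOn ℝ ∞ (fun z : ℝ × V => p z.1 z.2) (Ico 0 Ts ×ˢ univ) := by
    rintro ⟨t, x⟩ ⟨ht, -⟩
    obtain ⟨N, Z, Y, hF, t', htt', -, hG, hN⟩ := hloc t ht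
    have h1 : ContDiffWithinAt ℝ ∞ (fun z : ℝ × V => prs w₀ Y z.1 z.2) (Ico 0 Ts ×ˢ univ) (t, x) :=
      (prs_smooth2 hD hF).contDiffAt.contDiffWithinAt
    refine h1.congr_of_eventuallyEq ?_ (by simp only; rw [(hN t ht.1 htt').2])
    have h2 : ∀ᶠ z : ℝ × V in 𝓝 (t, x), z.1 < t' :=
      (continuous_fst.tendsto (t, x)).eventually (eventually_lt_nhds htt')
    filter_upwards [nhdsWithin_le_nhds h2, self_mem_nhdsWithin] with z hz hz'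
    rw [(hN z.1 hz'.1.1 hz).2]
  have hu0 : u 0 = par w₀ := by
    obtain ⟨N, Z, Y, hF, t', htt', -, hG, hN⟩ := hloc 0 ⟨le_rfl, hTs0⟩
    rw [(hN 0 le_rfl htt').1, sol_zero2 hF]
  have hun : ∀ t x, ‖u t x‖ ≤ 1 := fun t x => sol_norm2 hD _ _ _
  have hsol : IsModSol (TG D n₀ α q) (Ico 0 Ts) u p := by
    refine ⟨hsm.of_le (by simp), hsmp.of_le (by simp), fun t _ => par_periodic _, ?_, ?_, ?_⟩
    · intro t _ i x
      simp only [hp]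
      unfold prs
      rw [pr_periodic i x]
    · intro t ht x
      obtain ⟨N, Z, Y, hF, t', htt', -, hG, hN⟩ := hloc t ht
      rw [(hN t ht.1 htt').1]
      exact (isModSol2 (α := α) (q := q) hD hF hG).div_free t ⟨ht.1, htt'⟩ x
    · intro t ht x i
      obtain ⟨N, Z, Y, hF, t', htt', ht'T, hG, hN⟩ := hloc t ht
      have h1 := (isModSol2 (α := α) (q := q) hD hF hG).momentum t ⟨ht.1, htt'⟩ x i
      rw [(hN t ht.1 htt').1, (hN t ht.1 htt').2]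
      have e1 : derivWithin (fun s => u s x i) (Ico 0 Ts) t
          = derivWithin (fun s => u s x i) (Ico 0 t') t := by
        refine derivWithin_congr_set ?_
        have : ∀ᶠ r in 𝓝 t, r < t' := eventually_lt_nhds htt'
        filter_upwards [this] with r hr
        exact propext ⟨fun h => ⟨h.1, hr⟩, fun h => ⟨h.1, h.2.trans_le ht'T⟩⟩
      have e2 : derivWithin (fun s => u s x i) (Ico 0 t') t
          = derivWithin (fun s => sol w₀ Y s x i) (Ico 0 t') t := by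
        refine derivWithin_congr (fun s hs => ?_) ?_
        · simp only [(hN s hs.1 hs.2).1]
        · simp only [(hN t ht.1 htt').1]
      rw [e1, e2]
      exact h1
  refine ⟨⟨τ₀, hτ₀S⟩, hbdd, hTs0, hTsT₁, u, p, hu0, hsol, hsm, hsmp, hun, ?_, ?_⟩
  · intro a v r hv hv0
    have h1 : a ≤ Ts := by
      refine le_of_forall_lt fun b hb => ?_
      rcases lt_or_ge b 0 with h | h
      · exact h.trans hTs0
      · obtain ⟨K, -, hK⟩ := Pool.Agent.Zk71.MB.unif_bound hv.contDiffOn_u hv.periodic_u h hb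
        obtain ⟨τ, hτ, h2⟩ := hmem h (hv.mono hb.le) (hv0.trans hu0) (hconst b K)
          (fun t ht => hK t (Ico_subset_Icc_self ht))
        have := le_csSup hbdd h2
        linarith
    exact ⟨h1, Pool.Agent.Zk71.MB.unique hT hv (hsol.mono h1) hv0⟩
  · intro g hg
    by_contra hcon
    push Not at hcon
    obtain ⟨τ, hτ, h2⟩ := hmem hTs0.le hsol hu0 (g := fun t => |g t| + 1)
      (hg.abs.add (hconst Ts 1))
      (fun t ht x => ⟨(hun t x).trans (by linarith [abs_nonneg (g t)]),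
        (hcon t ht x).trans (by linarith [le_abs_self (g t)])⟩)
    have := le_csSup hbdd h2
    linarith

end Pool.Agent.Zk27.MB
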