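import Pool.Agent.Zk27.MB2.Sol
import Pool.Agent.Zk27.MB.Cont
import Pool.Agent.Zk71.MB2.X

/-! Second version: continuation -/

open MeasureTheory Set
open scoped ContDiff Topology

namespace Pool.Agent.Zk27.MB

open Pool.Agent.H708R2.EulerSign
open Pool.Agent.R739.ET (wr wr_add wr_eq)

variable {D n₀ : ℕ} {w₀ : ℝ × ℝ → ℝ} {r₀ α q : ℝ} {N : ℕ} {Z Y : ℝ → ℝ × ℝ → ℝ × ℝ}

lemma flow_ex (s : Finset ℕ) (X : ℕ → ℝ × ℝ → ℝ × ℝ) (φ : ℕ → ℝ × ℝ → ℝ) (w₀ : ℝ × ℝ → ℝ)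
    (h1 : ∀ k ∈ s, ContDiff ℝ ∞ (X k)) (h2 : ∀ k ∈ s, HasCompactSupport (X k))
    (h3 : ∀ k ∈ s, ∀ p, (fderiv ℝ (X k) p (1, 0)).1 + (fderiv ℝ (X k) p (0, 1)).2 = 0)
    (h4 : ∀ k ∈ s, ContDiff ℝ ∞ (φ k)) (h5 : ∀ k ∈ s, HasCompactSupport (φ k))
    (h6 : ContDiff ℝ ∞ w₀) (h7 : HasCompactSupport w₀) : ∃ Z Y, IsFlow s X φ w₀ Z Y := by
  obtain ⟨Z, Y, g1, g2, g3, g4, g5, g6⟩ := Pool.Agent.Zk94.FL.exists_flow s X φ w₀ h1 h2 h3 h4 h5
    h6 h7
  exact ⟨Z, Y, g1, g2, g3, g4, g5, g6⟩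

lemma vel_zero2 (s : Finset ℕ) (φ : ℕ → ℝ × ℝ → ℝ) (t : ℝ) :
    vel s (Xg D α q) φ w₀ Y t 0 = 0 := by
  unfold vel Xg
  exact Finset.sum_eq_zero fun k _ => by rw [Xf_origin, smul_zero]

/-- the speed is controlled by the gradient of the solution -/
lemma speed2 (hD : Dat2 n₀ w₀ r₀) {C : ℝ} (hT : IsOp (TG D n₀ α q) C)
    (hF : Fl2 D n₀ α q w₀ N Z Y) {t : ℝ} (hG : ∀ z : ℝ × ℝ, ‖z‖ ≤ Rad N → w₀ (Y t z) = 0)
    {B : ℝ} (hB : ∀ x, ‖sol w₀ Y t x‖ ≤ B ∧ ‖fderiv ℝ (sol w₀ Y t) x‖ ≤ B) (z : ℝ × ℝ) :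
    ‖vel (Finset.Icc n₀ N) (Xg D α q) (pg D) w₀ Y t z‖ ≤ |C| * B * ‖z‖ := by
  have hB0 : 0 ≤ B := (norm_nonneg _).trans (hB 0).1
  by_cases hz : ‖z‖ ≤ 1
  · have hs : ContDiff ℝ 1 (sol w₀ Y t) := by
      have := (sol_smooth2 hD hF).comp ((contDiff_const (c := t)).prodMk (contDiff_id (E := V)))
      exact this.of_le (by simp)
    obtain ⟨h1, h2⟩ := hT.c1 (sol w₀ Y t) B hs (par_periodic _) (fun x => (hB x).1)
      (fun x => (hB x).2)
    have h3 : ∀ x, TG D n₀ α q (sol w₀ Y t) x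
        = emb (vel (Finset.Icc n₀ N) (Xg D α q) (pg D) w₀ Y t (pr x)) := fun x =>
      TG_par D hD.hn α q (wt_smooth2' hD hF t).continuous hG x
    have h4 := convex_univ.norm_image_sub_le_of_norm_fderiv_le (𝕜 := ℝ)
      (f := TG D n₀ α q (sol w₀ Y t)) (C := C * B) (x := emb 0) (y := emb z)
      (fun x _ => h1.differentiable one_ne_zero x) (fun x _ => h2 x) (mem_univ _) (mem_univ _)
    rw [h3, h3, pr_emb hz, pr_emb (by simp), vel_zero2, emb_zero, sub_zero, sub_zero, norm_emb,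
      norm_emb] at h4
    refine h4.trans (mul_le_mul_of_nonneg_right ?_ (norm_nonneg _))
    exact mul_le_mul_of_nonneg_right (le_abs_self _) hB0
  · have h1 : vel (Finset.Icc n₀ N) (Xg D α q) (pg D) w₀ Y t z = 0 := by
      unfold vel
      refine Finset.sum_eq_zero fun k hk => ?_
      have : Xg D α q k z = 0 := by
        by_contra h2
        have h3 := Xg_out hD.hn (Finset.mem_Icc.1 hk).1 h2
        refine hz ?_
        rw [Prod.norm_def]
        exact max_le h3.1.le h3.2.le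
      rw [this, smul_zero]
    rw [h1, norm_zero]
    positivity

/-- continuation -/
theorem cont_step2 (hD : Dat2 n₀ w₀ r₀) {C : ℝ} (hT : IsOp (TG D n₀ α q) C) {CX : ℝ} (hCX : 0 < CX)
    (hX : ∀ (w₀ : ℝ × ℝ → ℝ), (∀ z, |w₀ z| ≤ 1) → ∀ (s : Finset ℕ) Y t z,
      ‖vel s (Xg D α q) (pg D) w₀ Y t z‖ ≤ CX)
    {a : ℝ} (ha : 0 ≤ a) {v : ℝ → V → V}
    {p : ℝ → V → ℝ} (hv : IsModSol (TG D n₀ α q) (Ico 0 a) v p) (hv0 : v 0 = par w₀) {g : ℝ → ℝ}
    (hg : IntegrableOn g (Ico 0 a))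
    (hB : ∀ t ∈ Ico 0 a, ∀ x, ‖v t x‖ ≤ g t ∧ ‖fderiv ℝ (v t) x‖ ≤ g t) :
    ∃ N₂ : ℕ, ∀ N ≥ N₂, ∃ τ > 0, ∀ Z Y, Fl2 D n₀ α q w₀ N Z Y → Good2 w₀ N Y (a + τ) := by
  have hg0 : ∀ t ∈ Ico 0 a, 0 ≤ g t := fun t ht => (norm_nonneg _).trans (hB t ht 0).1
  set A : ℝ := 2 * (|C| * ∫ r in Ico 0 a, g r) with hA
  have hA0 : 0 ≤ A := by
    have := setIntegral_nonneg (μ := volume) measurableSet_Ico hg0
    positivity
  have hr₀ := hD.pos
  obtain ⟨N₂, hN₂⟩ : ∃ N₂, ∀ N ≥ N₂, Rad N < r₀ / (4 * Real.exp A) := by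
    have h1 : ∀ᶠ N in Filter.atTop, Rad N < r₀ / (4 * Real.exp A) :=
      (Rad_tendsto).eventually (gt_mem_nhds (by positivity))
    exact Filter.eventually_atTop.1 h1
  refine ⟨N₂, fun N hN => ?_⟩
  set R : ℝ := Rad N with hR
  have hR0 : 0 < R := Rad_pos N
  have hexp : 1 ≤ Real.exp A := Real.one_le_exp hA0
  have hRr : 4 * R * Real.exp A ≤ r₀ := by
    have h2 := hN₂ N hN
    rw [lt_div_iff₀ (by positivity)] at h2
    linarith
  have hRr0 : 2 * R ≤ r₀ := by nlinarith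
  set τ : ℝ := R / (4 * CX) with hτ
  have hτ0 : 0 < τ := by positivity
  refine ⟨τ, hτ0, fun Z Y hF => ?_⟩
  -- points of the support stay away from the origin
  have hQ0 : ∀ z, w₀ (Y 0 z) ≠ 0 → 2 * R ≤ ‖z‖ := by
    intro z hz
    rw [hF.zero'] at hz
    have h1 := (hD.supp z hz).1
    have h2 := (le_abs_self _).trans (norm_fst_le z)
    linarith
  have hQ : ∀ t, t ≤ a → Good2 w₀ N Y t → ∀ r, 0 ≤ r → r < t → ∀ z, w₀ (Y r z) ≠ 0 →
      2 * R ≤ ‖z‖ := by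
    intro t hta hG r hr0 hrt z hz
    have h1 := isModSol2 (α := α) (q := q) hD hF hG
    have hs0 : sol w₀ Y 0 = v 0 := by
      rw [hv0]
      have e : wt w₀ Y 0 = w₀ := by
        funext y
        unfold wt
        rw [hF.zero']
      unfold sol
      rw [e]
    have h2 := Pool.Agent.Zk71.MB.unique hT h1 (hv.mono hta) hs0
    have hsub : Icc 0 r ⊆ Ico 0 a := fun s hs => ⟨hs.1, (hs.2.trans_lt hrt).trans_le hta⟩
    have hgi : IntegrableOn (fun s => |C| * g s) (Icc 0 r) := (hg.mono_set hsub).const_mul _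
    have h3 := hF.expBound2 (g := fun s => |C| * g s) hr0 hgi
      (fun s hs => mul_nonneg (abs_nonneg _) (hg0 s (hsub hs))) (fun r' hr' z' => by
      have hr2 : r' ∈ Ico 0 t := ⟨hr'.1, hr'.2.trans_lt hrt⟩
      refine speed2 hD hT hF (fun y hy => hG r' ⟨hr'.1, (hr'.2.trans_lt hrt).le⟩ y hy) ?_ z'
      intro x
      rw [h2 r' hr2]
      exact hB r' ⟨hr2.1, hr2.2.trans_le hta⟩ x) (Y r z)
    rw [hF.left, integral_const_mul] at h3
    have h4 := (hD.supp _ hz).1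
    have h5 := (le_abs_self _).trans (norm_fst_le (Y r z))
    have hmon : ∫ s in Icc 0 r, g s ≤ ∫ s in Ico 0 a, g s := by
      refine setIntegral_mono_set hg ?_ hsub.eventuallyLE
      exact (ae_restrict_iff' measurableSet_Ico).2 (Filter.Eventually.of_forall fun s hs => hg0 s hs)
    have h6 : Real.exp (2 * (|C| * ∫ s in Icc 0 r, g s)) ≤ Real.exp A := by
      apply Real.exp_le_exp.2
      rw [hA]
      have := mul_le_mul_of_nonneg_left hmon (abs_nonneg C)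
      linarith
    have h7 : 2 * ‖z‖ * Real.exp (2 * (|C| * ∫ s in Icc 0 r, g s)) ≤ 2 * ‖z‖ * Real.exp A :=
      mul_le_mul_of_nonneg_left h6 (by positivity)
    have h8 : 4 * R * Real.exp A ≤ 2 * ‖z‖ * Real.exp A := by linarith
    have h9 := le_of_mul_le_mul_right h8 (Real.exp_pos _)
    linarith
  have hstep : ∀ t, 0 ≤ t → t ≤ a → Good2 w₀ N Y t → Good2 w₀ N Y (t + τ) := by
    intro t ht0 hta hG s hs z hz
    by_contra hne
    obtain ⟨r, hr0, hrs, hsr, hr⟩ : ∃ r, 0 ≤ r ∧ r ≤ s ∧ s - r ≤ 2 * τ ∧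
        ∀ z, w₀ (Y r z) ≠ 0 → 2 * R ≤ ‖z‖ := by
      rcases lt_or_ge s t with h | h
      · exact ⟨s, hs.1, le_refl s, by linarith, hQ t hta hG s hs.1 h⟩
      · rcases le_or_gt t τ with h' | h'
        · exact ⟨0, le_refl 0, hs.1, by linarith [hs.2], hQ0⟩
        · exact ⟨t - τ, by linarith, by linarith, by linarith [hs.2],
            hQ t hta hG (t - τ) (by linarith) (by linarith)⟩
    have h1 := hr (Z r (Y s z)) (by rw [hF.right]; exact hne)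
    have h2 := hF.disp (hX w₀ hD.le_one (Finset.Icc n₀ N) Y) r s (Y s z)
    rw [hF.left] at h2
    have h3 : |r - s| ≤ 2 * τ := by
      rw [_root_.abs_le]; constructor <;> linarith
    have h4 : CX * |r - s| ≤ CX * (2 * τ) := mul_le_mul_of_nonneg_left h3 hCX.le
    have h5 : CX * (2 * τ) = R / 2 := by
      rw [hτ]; field_simp; ring
    have h6 : ‖Z r (Y s z)‖ ≤ ‖Z r (Y s z) - z‖ + ‖z‖ := by
      have := norm_add_le (Z r (Y s z) - z) z
      simpa using this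
    have h7 : ‖z‖ ≤ R := hz
    linarith
  have hG0 : Good2 w₀ N Y 0 := by
    intro s hs z hz
    have hs0 : s = 0 := le_antisymm hs.2 hs.1
    subst hs0
    by_contra hne
    have h1 := hQ0 z hne
    have h7 : ‖z‖ ≤ R := hz
    linarith
  have hind : ∀ j : ℕ, (j:ℝ) * τ ≤ a → Good2 w₀ N Y (j * τ) := by
    intro j
    induction j with
    | zero => intro _; simpa using hG0
    | succ j ih =>
      intro hj
      push_cast at hj ⊢
      have h1 : (j:ℝ) * τ ≤ a := by nlinarith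
      have h2 := hstep (j * τ) (by positivity) h1 (ih h1)
      have e : ((j:ℝ) + 1) * τ = j * τ + τ := by ring
      rw [e]
      exact h2
  set j := ⌊a / τ⌋₊ with hj
  have h1 : (j:ℝ) ≤ a / τ := Nat.floor_le (by positivity)
  have h2 : a / τ < j + 1 := Nat.lt_floor_add_one _
  rw [le_div_iff₀ hτ0] at h1
  rw [div_lt_iff₀ hτ0] at h2
  have h3 := hstep (j * τ) (by positivity) h1 (hind j h1)
  exact hstep a ha (le_refl a) (h3.mono (by linarith))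

end Pool.Agent.Zk27.MB
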