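import Pool.Agent.Zk27.MB.Cut2
import Pool.Agent.Zk27.MB.Sol

/-! Parallel flows, second version: evaluation of the operator -/

open MeasureTheory Set
open scoped ContDiff Topology

namespace Pool.Agent.Zk27.MB

open Pool.Agent.H708R2.EulerSign
open Pool.Agent.R739.ET (wr wr_add wr_eq)

/-- radius of the region which the scales `≥ N` see -/
noncomputable def Rad (N : ℕ) : ℝ := 16 * (N + 1) / 2 ^ N

lemma Rad_pos (N : ℕ) : 0 < Rad N := by unfold Rad; positivity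

lemma Rad_anti : Antitone Rad := by
  refine antitone_nat_of_succ_le fun n => ?_
  unfold Rad
  rw [div_le_div_iff₀ (by positivity) (by positivity)]
  push_cast
  have h : (0:ℝ) < 2 ^ n := by positivity
  have hn : (0:ℝ) ≤ n := n.cast_nonneg
  rw [pow_succ]
  nlinarith

lemma half_le_Rad (N : ℕ) : (1 / 2 : ℝ) ^ N ≤ Rad N := by
  unfold Rad
  rw [div_pow, one_pow]
  gcongr
  have hn : (0:ℝ) ≤ N := N.cast_nonneg
  linarith

lemma Rad_tendsto : Filter.Tendsto Rad Filter.atTop (𝓝 0) := by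
  have h1 := tendsto_pow_const_mul_const_pow_of_abs_lt_one 1 (r := (1/2:ℝ)) (by
    rw [abs_of_pos] <;> norm_num)
  have h2 := tendsto_pow_const_mul_const_pow_of_abs_lt_one 0 (r := (1/2:ℝ)) (by
    rw [abs_of_pos] <;> norm_num)
  have h3 := (h1.add h2).const_mul 16
  simp only [pow_one, pow_zero, add_zero, mul_zero, one_mul] at h3
  refine h3.congr fun n => ?_
  unfold Rad
  rw [div_pow, one_pow]
  ring

lemma small_aux (D : ℕ) (k : ℕ) : (8 * ((k / D : ℕ) : ℝ) + 2) / 2 ^ k ≤ Rad k := by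
  unfold Rad
  gcongr
  have h1 : ((k / D : ℕ) : ℝ) ≤ k := by exact_mod_cast Nat.div_le_self k D
  have hn : (0:ℝ) ≤ k := k.cast_nonneg
  linarith

lemma two_aux (k : ℕ) : (2 : ℝ) / 2 ^ k ≤ Rad k := by
  unfold Rad
  gcongr
  have hn : (0:ℝ) ≤ k := k.cast_nonneg
  linarith

lemma eight_aux {n : ℕ} (hn : 6 ≤ n) : 8 * n + 2 < 2 ^ n := by
  induction n, hn using Nat.le_induction with
  | base => norm_num
  | succ n hn ih => rw [pow_succ]; omega

lemma lt_aux (D : ℕ) {n : ℕ} (hn : 6 ≤ n) : (8 * ((n / D : ℕ) : ℝ) + 2) / 2 ^ n < 1 := by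
  rw [div_lt_one (by positivity)]
  have h1 : ((n / D : ℕ) : ℝ) ≤ n := by exact_mod_cast Nat.div_le_self n D
  have h2 : ((8 * n + 2 : ℕ) : ℝ) < ((2 ^ n : ℕ) : ℝ) := by exact_mod_cast eight_aux hn
  push_cast at h2
  linarith

lemma lt_aux2 {n : ℕ} (hn : 6 ≤ n) : (2 : ℝ) / 2 ^ n < 1 := by
  rw [div_lt_one (by positivity)]
  have h2 : ((8 * n + 2 : ℕ) : ℝ) < ((2 ^ n : ℕ) : ℝ) := by exact_mod_cast eight_aux hn
  push_cast at h2
  have hn : (0:ℝ) ≤ n := n.cast_nonneg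
  linarith

lemma pg_small {D k : ℕ} {z : ℝ × ℝ} (h : pg D k z ≠ 0) :
    |z.1| ≤ (8 * ((k / D : ℕ) : ℝ) + 2) / 2 ^ k ∧ |z.2| ≤ 2 / 2 ^ k := ph_small h

lemma Xg_small {D : ℕ} {α q : ℝ} {k : ℕ} {z : ℝ × ℝ} (h : Xg D α q k z ≠ 0) :
    |z.1| ≤ (8 * ((k / D : ℕ) : ℝ) + 2) / 2 ^ k ∧ |z.2| ≤ 2 / 2 ^ k := Xf_small h

lemma coeff_bound2 : ∃ C, 0 < C ∧ ∀ (M k : ℕ) (w : ℝ × ℝ → ℝ), (∀ z, |w z| ≤ 1) →
    |∫ x, ph M k x * w x| ≤ C * 4 ^ M := by
  obtain ⟨Cφ, hCφ⟩ := phi_compact.exists_bound_of_continuous phi_smooth.continuous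
  have hC0 : 0 ≤ Cφ := (norm_nonneg _).trans (hCφ 0)
  refine ⟨64 * Cφ + 1, by positivity, fun M k w hw => ?_⟩
  have h2 : (0:ℝ) < 2 ^ k := by positivity
  set B : Set (ℝ × ℝ) := Icc (-((8 * M + 2) / 2 ^ k) : ℝ) ((8 * M + 2) / 2 ^ k) ×ˢ
    Icc (-(2 / 2 ^ k) : ℝ) (2 / 2 ^ k) with hB
  have h1 : ∫ x, ph M k x * w x = ∫ x in B, ph M k x * w x := by
    symm
    refine setIntegral_eq_integral_of_forall_compl_eq_zero fun z hz => ?_
    have : ph M k z = 0 := by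
      by_contra h
      have := ph_small h
      exact hz ⟨_root_.abs_le.1 this.1, _root_.abs_le.1 this.2⟩
    rw [this, zero_mul]
  have hvol : volume.real B = 8 * (8 * M + 2) / 4 ^ k := by
    rw [hB, Measure.volume_eq_prod, measureReal_prod_prod, Real.volume_real_Icc_of_le,
      Real.volume_real_Icc_of_le]
    · have : (4:ℝ) ^ k = 2 ^ k * 2 ^ k := by rw [← mul_pow]; norm_num
      rw [this]
      field_simp
      ring
    · have : (0:ℝ) ≤ 2 / 2 ^ k := by positivity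
      linarith
    · have : (0:ℝ) ≤ (8 * M + 2) / 2 ^ k := by positivity
      linarith
  have hfin : volume B < ⊤ := by
    rw [hB]
    exact (isCompact_Icc.prod isCompact_Icc).measure_lt_top
  have h3 := norm_setIntegral_le_of_norm_le_const (μ := volume) (s := B)
    (f := fun x => ph M k x * w x) (C := 4 ^ k * (2 ^ M * Cφ)) hfin fun z _ => by
      rw [norm_mul]
      have h4 : ‖ph M k z‖ ≤ 4 ^ k * (2 ^ M * Cφ) := by
        unfold ph
        rw [norm_mul, norm_pow, Real.norm_of_nonneg (by norm_num : (0:ℝ) ≤ 4)]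
        exact mul_le_mul_of_nonneg_left (cp_norm hCφ z) (by positivity)
      calc ‖ph M k z‖ * ‖w z‖ ≤ (4 ^ k * (2 ^ M * Cφ)) * 1 :=
            mul_le_mul h4 (hw z) (norm_nonneg _) (by positivity)
        _ = _ := mul_one _
  rw [hvol] at h3
  rw [h1, ← Real.norm_eq_abs]
  refine h3.trans ?_
  have e : (4:ℝ) ^ k * (2 ^ M * Cφ) * (8 * (8 * M + 2) / 4 ^ k) = 8 * (8 * M + 2) * 2 ^ M * Cφ := by
    field_simp
  rw [e]
  have h5 : (M:ℝ) + 1 ≤ 2 ^ M := by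
    have := Nat.lt_two_pow_self (n := M)
    exact_mod_cast this
  have h6 : (4:ℝ) ^ M = 2 ^ M * 2 ^ M := by rw [← mul_pow]; norm_num
  rw [h6]
  have h7 : (0:ℝ) < 2 ^ M := by positivity
  have h8 : 8 * (8 * (M:ℝ) + 2) * 2 ^ M ≤ 64 * (2 ^ M * 2 ^ M) := by nlinarith
  have h9 := mul_le_mul_of_nonneg_right h8 hC0
  nlinarith [mul_pos h7 h7]

lemma vel_bound2 (D : ℕ) {α q Λ : ℝ} (hα : 0 ≤ α) (hq : 0 ≤ q)
    (hΛ : ∀ n : ℕ, (8 : ℝ) ^ (n / D) ≤ Λ ^ n) (hΛ0 : 0 ≤ Λ) (hqΛ : q * Λ < 2) :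
    ∃ C, 0 < C ∧ ∀ (w₀ : ℝ × ℝ → ℝ), (∀ z, |w₀ z| ≤ 1) → ∀ (s : Finset ℕ) Y t z,
      ‖vel s (Xg D α q) (pg D) w₀ Y t z‖ ≤ C := by
  obtain ⟨C1, hC1, h1⟩ := coeff_bound2
  obtain ⟨C2, hC2, h2⟩ := V0_bounded
  have hr0 : 0 ≤ q * Λ / 2 := by positivity
  have hr1 : q * Λ / 2 < 1 := by linarith
  have hr2 : 0 < (1 - q * Λ / 2)⁻¹ := inv_pos.2 (by linarith)
  refine ⟨C1 * (α * C2) * (1 - q * Λ / 2)⁻¹ + 1, by positivity, fun w₀ hw s Y t z => ?_⟩
  unfold vel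
  refine (norm_sum_le _ _).trans ?_
  have h3 : ∀ k ∈ s, ‖(∫ x, pg D k x * w₀ (Y t x)) • Xg D α q k z‖
      ≤ C1 * (α * C2) * (q * Λ / 2) ^ k := by
    intro k _
    rw [norm_smul]
    calc _ ≤ (C1 * 4 ^ (k / D)) * (α * 2 ^ (k / D) * C2 * (q / 2) ^ k) :=
          mul_le_mul (h1 (k / D) k (fun x => w₀ (Y t x)) fun x => hw _)
            (Xf_norm (k / D) hα hq k h2 z) (norm_nonneg _) (by positivity)
      _ = C1 * (α * C2) * (8 ^ (k / D) * (q / 2) ^ k) := by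
          have : (8:ℝ) ^ (k / D) = 4 ^ (k / D) * 2 ^ (k / D) := by rw [← mul_pow]; norm_num
          rw [this]; ring
      _ ≤ C1 * (α * C2) * (Λ ^ k * (q / 2) ^ k) := by
          have := hΛ k
          gcongr
      _ = _ := by rw [← mul_pow]; ring
  refine (Finset.sum_le_sum h3).trans ?_
  rw [← Finset.mul_sum]
  have h4 : ∑ k ∈ s, (q * Λ / 2) ^ k ≤ (1 - q * Λ / 2)⁻¹ := by
    rw [← tsum_geometric_of_lt_one hr0 hr1]
    exact (summable_geometric_of_lt_one hr0 hr1).sum_le_tsum s fun k _ => by positivity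
  have h5 : C1 * (α * C2) * ∑ k ∈ s, (q * Λ / 2) ^ k
      ≤ C1 * (α * C2) * (1 - q * Λ / 2)⁻¹ := mul_le_mul_of_nonneg_left h4 (by positivity)
  linarith

lemma ip_F2 (D : ℕ) {n : ℕ} (hn : 6 ≤ n) {w : ℝ × ℝ → ℝ}
    (hw : Continuous w) : ip (par w) (blk (n / D) n F0) = 2 * Real.pi * ∫ z, w z * cp (n / D) n phi z := by
  unfold ip
  have h1 : ∀ x : V, ∑ i, par w x i * blk (n / D) n F0 x i
      = (fun z => w z * cp (n / D) n phi z) (pr x) := by
    intro x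
    rw [blk_F0, Fin.sum_univ_three]
    simp [par]
  simp only [h1]
  refine integral_pr _ (hw.mul (cp_smooth (n / D) n phi_smooth).continuous) fun z hz => ?_
  have h2 : cp (n / D) n phi z ≠ 0 := right_ne_zero_of_mul hz
  have h3 := cp_small phi_supp2 h2
  exact ⟨h3.1.trans_lt (lt_aux D hn), h3.2.trans_lt (lt_aux2 hn)⟩

/-- the operator of the cascade -/
noncomputable def TG (D n₀ : ℕ) (α q : ℝ) : (V → V) → V → V :=
  opr (fun n => α / (2 * Real.pi) * (2 * q) ^ (n₀ + n)) (fun n => blk ((n₀ + n) / D) (n₀ + n) F0)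
    (fun n => blk ((n₀ + n) / D) (n₀ + n) G0)

/-- the operator on a parallel flow which vanishes near the origin -/
lemma TG_par (D : ℕ) {n₀ : ℕ} (h : 6 ≤ n₀) (α q : ℝ) {w : ℝ × ℝ → ℝ} (hw : Continuous w)
    {N : ℕ} (hN : ∀ z, ‖z‖ ≤ Rad N → w z = 0) (x : V) :
    TG D n₀ α q (par w) x
      = emb (∑ k ∈ Finset.Icc n₀ N, (∫ z, pg D k z * w z) • Xg D α q k (pr x)) := by
  unfold TG opr
  have h1 : ∀ n, (α / (2 * Real.pi) * (2 * q) ^ (n₀ + n)) •
      (ip (par w) (blk ((n₀ + n) / D) (n₀ + n) F0) • blk ((n₀ + n) / D) (n₀ + n) G0 x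
        + ip (par w) (blk ((n₀ + n) / D) (n₀ + n) G0) • blk ((n₀ + n) / D) (n₀ + n) F0 x)
      = emb ((∫ z, pg D (n₀ + n) z * w z) • Xg D α q (n₀ + n) (pr x)) := by
    intro n
    rw [ip_G, zero_smul, add_zero, ip_F2 D (h.trans (Nat.le_add_right _ _)) hw, blk_G0, smul_smul,
      ← emb_smul]
    congr 1
    unfold Xg Xf
    rw [smul_smul]
    congr 1
    have e : ∫ z, pg D (n₀ + n) z * w z
        = 4 ^ (n₀ + n) * ∫ z, w z * cp ((n₀ + n) / D) (n₀ + n) phi z := by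
      rw [← integral_const_mul]
      congr 1
      funext z
      unfold pg ph; ring
    rw [e]
    have hpi := Real.pi_pos
    have e4 : (4:ℝ) ^ (n₀ + n) * (1 / 2) ^ (n₀ + n) = 2 ^ (n₀ + n) := by
      rw [← mul_pow]; norm_num
    rw [mul_pow]
    calc α / (2 * Real.pi) * (2 ^ (n₀ + n) * q ^ (n₀ + n)) *
          (2 * Real.pi * ∫ z, w z * cp ((n₀ + n) / D) (n₀ + n) phi z)
        = α * q ^ (n₀ + n) * (2 ^ (n₀ + n)) * ∫ z, w z * cp ((n₀ + n) / D) (n₀ + n) phi z := by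
          field_simp
      _ = _ := by rw [← e4]; ring
  simp only [h1]
  have h2 : ∀ k, N < k → ∫ z, pg D k z * w z = 0 := by
    intro k hk
    have : ∀ z, pg D k z * w z = 0 := by
      intro z
      by_cases hz : pg D k z = 0
      · rw [hz, zero_mul]
      · have h3 := pg_small hz
        rw [hN z, mul_zero]
        rw [Prod.norm_def]
        exact max_le (h3.1.trans ((small_aux D k).trans (Rad_anti hk.le)))
          (h3.2.trans ((two_aux k).trans (Rad_anti hk.le)))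
    simp only [this, integral_zero]
  rw [tsum_eq_sum (s := Finset.range (N + 1 - n₀))]
  · rw [emb_sum]
    rw [← Finset.Ico_add_one_right_eq_Icc, Finset.sum_Ico_eq_sum_range]
  · intro n hn
    rw [Finset.mem_range] at hn
    rw [h2 (n₀ + n) (by omega), zero_smul, emb_zero]

end Pool.Agent.Zk27.MB
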